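import Pool.Agent.FD.All

/-!
# Finite descent on curves: `n` has to be divisible by arbitrary primes

For every finite set `S` of primes there is a smooth projective geometrically integral curve
`C` over `ℚ` without rational points such that the `n`-Selmer set of `C` is not empty for
every `n ≥ 1` which is not divisible by all primes of `S`.
-/

namespace Pool.Agent.Variants.MP_d37f77_nt.DescentNeedsAllPrimes

open Pool.Agent.FD

/-- For every finite set `S` of primes there is a curve `C` over `ℚ` with `C(ℚ) = ∅` and
`Sel^(n)(C) ≠ ∅` for every `n ≥ 1` that is not divisible by all primes of `S`. -/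
theorem result (S : Finset ℕ) (hS : ∀ p ∈ S, p.Prime) :
    ∃ C : Curve, ¬ C.HasPoint ℚ ∧
      ∀ n : ℕ, 1 ≤ n → (∃ p ∈ S, ¬ p ∣ n) → C.SelNonempty n :=
  Pool.Agent.FD.main S hS

end Pool.Agent.Variants.MP_d37f77_nt.DescentNeedsAllPrimes
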