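import Pool.Agent.FD.All

/-!
# Finite descent on curves: the least `n` is not bounded by a polynomial in the genus

For every `r` there is a `K` such that for every `X ≥ K` there is a smooth projective
geometrically integral curve `C` over `ℚ` without rational points, with a plane equation of
degree at most `K X` in `x` and at most `K` in `y` (so of genus at most `K² X` and gonality at
most `K`), such that `Sel^(n)(C)` is not empty for every `1 ≤ n < X^r`; in fact for every
`n ≥ 1` which is not a multiple of a certain `N ≥ X^r` all of whose prime factors exceed `X`.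
-/

namespace Pool.Agent.Variants.MP_d37f77_nt.LeastExponentGrowth

open Pool.Agent.FD

/-- For every `r` there is a `K` such that for every `X ≥ K` there are a curve `C` over `ℚ` with
a plane equation of degree at most `K X` in `x` and at most `K` in `y`, with `C(ℚ) = ∅`, and an
integer `N ≥ X^r`, all of whose prime factors exceed `X`, with `Sel^(n)(C) ≠ ∅` for every
`n ≥ 1` that is not a multiple of `N`. -/
theorem result (r : ℕ) : ∃ K : ℕ, ∀ X : ℕ, K ≤ X → ∃ C : Curve,
    C.F.degreeOf 0 ≤ K * X ∧ C.F.degreeOf 1 ≤ K ∧ ¬ C.HasPoint ℚ ∧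
    ∃ N : ℕ, X ^ r ≤ N ∧ (∀ p : ℕ, p.Prime → p ∣ N → X < p) ∧
      ∀ n : ℕ, 1 ≤ n → ¬ N ∣ n → C.SelNonempty n :=
  Pool.Agent.FD.mainC r

end Pool.Agent.Variants.MP_d37f77_nt.LeastExponentGrowth
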